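import Mathlib

/-!
# The classes `B_r` are open: `B_r` implies `B_q` for some `q < r`
-/

set_option autoImplicit false

noncomputable section

namespace Pool.Agent.L5helper3.BWeights

open MeasureTheory Set Finset
open scoped ENNReal NNReal

/-- the kernel -/
def K (r t : ℝ) : ℝ := 1 / (1 + t ^ r)

theorem K_nonneg {r t : ℝ} (ht : 0 ≤ t) : 0 ≤ K r t := by
  unfold K
  have := Real.rpow_nonneg ht r
  positivity

/-- the geometric sums of indicators are bounded by the kernel -/
theorem sum_le_K {r : ℝ} (hr : 1 ≤ r) (n : ℕ) : ∀ t : ℝ, 0 ≤ t →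
    ∑ j ∈ range n, (if t < 2 ^ j / 2 then ((2 : ℝ) ^ (-r)) ^ j else 0) ≤ 6 * K r t := by
  have h2 : (2 : ℝ) ≤ 2 ^ r := by
    calc (2 : ℝ) = 2 ^ (1 : ℝ) := (Real.rpow_one 2).symm
      _ ≤ 2 ^ r := Real.rpow_le_rpow_of_exponent_le (by norm_num) hr
  have h3 : (2 : ℝ) ^ (-r) * 2 ^ r = 1 := by
    rw [← Real.rpow_add (by norm_num)]
    simp
  have h4 : 0 < (2 : ℝ) ^ (-r) := Real.rpow_pos_of_pos (by norm_num) _
  induction n with
  | zero =>
    intro t ht
    have := K_nonneg (r := r) ht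
    simp only [Finset.range_zero, Finset.sum_empty]
    linarith
  | succ n ih =>
    intro t ht
    rw [Finset.sum_range_succ']
    have h5 : ∑ j ∈ range n, (if t < 2 ^ (j + 1) / 2 then ((2 : ℝ) ^ (-r)) ^ (j + 1) else 0) =
        2 ^ (-r) * ∑ j ∈ range n, (if t / 2 < 2 ^ j / 2 then ((2 : ℝ) ^ (-r)) ^ j else 0) := by
      rw [Finset.mul_sum]
      refine Finset.sum_congr rfl fun j _ => ?_
      have h6 : t < 2 ^ (j + 1) / 2 ↔ t / 2 < 2 ^ j / 2 := by
        rw [pow_succ]
        constructor <;> intro h <;> linarith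
      rw [if_congr h6 rfl rfl, mul_ite, mul_zero, pow_succ, mul_comm]
    rw [h5]
    have h7 := ih (t / 2) (by linarith)
    have ht' := Real.rpow_nonneg ht r
    have h8 : (2 : ℝ) ^ (-r) * (6 * K r (t / 2)) = 6 / (2 ^ r + t ^ r) := by
      unfold K
      rw [Real.div_rpow ht (by norm_num)]
      have h9 : (2 : ℝ) ^ r ≠ 0 := by positivity
      have h10 : (2 : ℝ) ^ (-r) = 1 / 2 ^ r := by
        rw [Real.rpow_neg (by norm_num), one_div]
      rw [h10]
      field_simp
    have h11 : (2 : ℝ) ^ (-r) * ∑ j ∈ range n,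
        (if t / 2 < 2 ^ j / 2 then ((2 : ℝ) ^ (-r)) ^ j else 0) ≤ 6 / (2 ^ r + t ^ r) := by
      rw [← h8]
      exact mul_le_mul_of_nonneg_left h7 h4.le
    by_cases h0 : t < 1 / 2
    · have h12 : t ^ r ≤ 1 := Real.rpow_le_one ht (by linarith) (by linarith)
      simp only [pow_zero]
      rw [if_pos h0]
      refine (add_le_add_left h11 1).trans ?_
      unfold K
      have e1 : 6 / (2 ^ r + t ^ r) + 1 ≤ 6 * (1 / (1 + t ^ r)) := by
        rw [div_add' _ _ _ (by positivity), mul_one_div, div_le_div_iff₀ (by positivity)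
          (by positivity)]
        nlinarith
      linarith
    · simp only [pow_zero]
      rw [if_neg h0, add_zero]
      refine h11.trans ?_
      unfold K
      rw [mul_one_div]
      apply div_le_div_of_nonneg_left (by norm_num) (by positivity)
      linarith

/-- the kernel is bounded by the geometric sum of indicators -/
theorem K_le {q : ℝ} (hq : 0 < q) (t : ℝ) (ht : 0 ≤ t) : ∃ j : ℕ, t < 2 ^ j / 2 ∧
    K q t ≤ 4 ^ q * ((2 : ℝ) ^ (-q)) ^ j := by
  classical
  have hex : ∃ j : ℕ, t < 2 ^ j / 2 := by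
    obtain ⟨n, hn⟩ := pow_unbounded_of_one_lt (2 * t) (by norm_num : (1 : ℝ) < 2)
    exact ⟨n, by linarith⟩
  refine ⟨Nat.find hex, Nat.find_spec hex, ?_⟩
  have ht' := Real.rpow_nonneg ht q
  have h4 : (1 : ℝ) ≤ 4 ^ q := Real.one_le_rpow (by norm_num) hq.le
  rcases Nat.eq_zero_or_pos (Nat.find hex) with h0 | h0
  · rw [h0, pow_zero, mul_one]
    refine le_trans ?_ h4
    unfold K
    rw [div_le_one (by positivity)]
    linarith
  · obtain ⟨k, hk⟩ : ∃ k, Nat.find hex = k + 1 := ⟨Nat.find hex - 1, by omega⟩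
    have h1 : ¬ t < 2 ^ k / 2 := Nat.find_min hex (by omega)
    push Not at h1
    rw [hk]
    have h2 : (2 ^ k / 2 : ℝ) ^ q ≤ t ^ q := Real.rpow_le_rpow (by positivity) h1 hq.le
    have h3 : (2 ^ k / 2 : ℝ) ^ q * (4 ^ q * ((2 : ℝ) ^ (-q)) ^ (k + 1)) = 1 := by
      have e1 : ((2 : ℝ) ^ (-q)) ^ (k + 1) = (2 ^ (k + 1) : ℝ) ^ (-q) := by
        rw [← Real.rpow_natCast, ← Real.rpow_natCast, ← Real.rpow_mul (by norm_num),
          ← Real.rpow_mul (by norm_num), mul_comm]
      have e2 : (2 ^ k / 2 : ℝ) * 4 = 2 ^ (k + 1) := by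
        rw [pow_succ]; ring
      rw [e1, ← mul_assoc, ← Real.mul_rpow (by positivity) (by norm_num), e2,
        ← Real.rpow_add (by positivity)]
      simp
    have h5 : 0 < 4 ^ q * ((2 : ℝ) ^ (-q)) ^ (k + 1) := by positivity
    unfold K
    rw [div_le_iff₀ (by positivity)]
    nlinarith

/-- the measure of an interval -/
def m (w : ℝ → ℝ≥0∞) (c h : ℝ) : ℝ≥0∞ := ∫⁻ x in Ioo (c - h) (c + h), w x

/-- the condition `B_r` in normalised form -/
def BB (r : ℝ) (w : ℝ → ℝ≥0∞) (C : ℝ≥0) : Prop := ∀ c h : ℝ, 0 < h →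
  ∫⁻ x, w x * ENNReal.ofReal (K r (|x - c| / (2 * h))) ≤ C * m w c h

theorem mem_Ioo_iff {x c h s : ℝ} (hh : 0 < h) :
    x ∈ Ioo (c - s * h) (c + s * h) ↔ |x - c| / (2 * h) < s / 2 := by
  rw [div_lt_iff₀ (by positivity), Set.mem_Ioo, show s / 2 * (2 * h) = s * h by ring, abs_lt]
  constructor
  · rintro ⟨h1, h2⟩
    constructor <;> linarith
  · rintro ⟨h1, h2⟩
    constructor <;> linarith

theorem m_eq (w : ℝ → ℝ≥0∞) (c h s : ℝ) (hh : 0 < h) : m w c (s * h) =
    ∫⁻ x, w x * (if |x - c| / (2 * h) < s / 2 then 1 else 0) := by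
  rw [m, ← lintegral_indicator measurableSet_Ioo]
  refine lintegral_congr fun x => ?_
  by_cases hx : x ∈ Ioo (c - s * h) (c + s * h)
  · rw [indicator_of_mem hx, if_pos ((mem_Ioo_iff hh).1 hx), mul_one]
  · rw [indicator_of_notMem hx, if_neg (fun h1 => hx ((mem_Ioo_iff hh).2 h1)), mul_zero]

theorem partial_sum {r : ℝ} (hr : 1 ≤ r) {w : ℝ → ℝ≥0∞} (hw : AEMeasurable w) {C : ℝ≥0}
    (hB : BB r w C) (c h : ℝ) (hh : 0 < h) (n : ℕ) :
    ∑ j ∈ range n, ENNReal.ofReal (((2 : ℝ) ^ (-r)) ^ j) * m w c (2 ^ j * h) ≤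
      6 * (C * m w c h) := by
  have h0 : 0 < (2 : ℝ) ^ (-r) := Real.rpow_pos_of_pos (by norm_num) _
  have h1 : ∑ j ∈ range n, ENNReal.ofReal (((2 : ℝ) ^ (-r)) ^ j) * m w c (2 ^ j * h) =
      ∫⁻ x, ∑ j ∈ range n, ENNReal.ofReal (((2 : ℝ) ^ (-r)) ^ j) *
        (w x * (if |x - c| / (2 * h) < 2 ^ j / 2 then 1 else 0)) := by
    rw [lintegral_finsetSum']
    · refine Finset.sum_congr rfl fun j _ => ?_
      rw [m_eq w c h _ hh, lintegral_const_mul']
      exact ENNReal.ofReal_ne_top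
    · intro j _
      refine AEMeasurable.const_mul (hw.mul (Measurable.aemeasurable ?_)) _
      refine Measurable.ite ?_ measurable_const measurable_const
      exact measurableSet_lt (by fun_prop) measurable_const
  rw [h1]
  calc ∫⁻ x, ∑ j ∈ range n, ENNReal.ofReal (((2 : ℝ) ^ (-r)) ^ j) *
        (w x * (if |x - c| / (2 * h) < 2 ^ j / 2 then 1 else 0))
      ≤ ∫⁻ x, 6 * (w x * ENNReal.ofReal (K r (|x - c| / (2 * h)))) := by
        refine lintegral_mono fun x => ?_
        have h2 := sum_le_K hr n (|x - c| / (2 * h)) (by positivity)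
        have h3 : ∑ j ∈ range n, ENNReal.ofReal (((2 : ℝ) ^ (-r)) ^ j) *
            (w x * (if |x - c| / (2 * h) < 2 ^ j / 2 then 1 else 0)) =
            w x * ENNReal.ofReal (∑ j ∈ range n,
              (if |x - c| / (2 * h) < 2 ^ j / 2 then ((2 : ℝ) ^ (-r)) ^ j else 0)) := by
          rw [ENNReal.ofReal_sum_of_nonneg, Finset.mul_sum]
          · refine Finset.sum_congr rfl fun j _ => ?_
            split_ifs
            · rw [mul_one, mul_comm]
            · simp
          · intro j _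
            split_ifs
            · positivity
            · exact le_rfl
        rw [h3]
        calc w x * ENNReal.ofReal (∑ j ∈ range n,
              (if |x - c| / (2 * h) < 2 ^ j / 2 then ((2 : ℝ) ^ (-r)) ^ j else 0))
            ≤ w x * ENNReal.ofReal (6 * K r (|x - c| / (2 * h))) := by
              gcongr
          _ = 6 * (w x * ENNReal.ofReal (K r (|x - c| / (2 * h)))) := by
              rw [ENNReal.ofReal_mul (by norm_num)]
              rw [show ENNReal.ofReal 6 = 6 by simp]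
              ring
    _ = 6 * ∫⁻ x, w x * ENNReal.ofReal (K r (|x - c| / (2 * h))) :=
        lintegral_const_mul' _ _ (by simp)
    _ ≤ 6 * (C * m w c h) := by
        gcongr
        exact hB c h hh

/-- geometric decay of a sequence whose tails are bounded by the first term -/
theorem decay {D : ℝ} (hD : 1 ≤ D) (a : ℕ → ℝ) (ha : ∀ k, 0 ≤ a k)
    (h : ∀ k n, ∑ j ∈ range n, a (k + j) ≤ D * a k) (k : ℕ) :
    a k ≤ D * (1 - 1 / D) ^ k * a 0 := by
  have hD0 : 0 < D := by linarith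
  have hθ : 0 ≤ 1 - 1 / D := by
    rw [sub_nonneg, div_le_one hD0]
    exact hD
  have key : ∀ i, i ≤ k → ∑ j ∈ range (k + 1 - i), a (i + j) ≤
      (1 - 1 / D) ^ i * ∑ j ∈ range (k + 1), a (0 + j) := by
    intro i
    induction i with
    | zero => intro _; simp
    | succ i ih =>
      intro hi
      have h1 := ih (by omega)
      have h2 : k + 1 - i = (k + 1 - (i + 1)) + 1 := by omega
      have h3 : ∑ j ∈ range (k + 1 - i), a (i + j) =
          ∑ j ∈ range (k + 1 - (i + 1)), a (i + 1 + j) + a i := by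
        rw [h2, Finset.sum_range_succ']
        congr 1
        refine Finset.sum_congr rfl fun j _ => ?_
        congr 1
        ring
      have h4 := h i (k + 1 - i)
      set T := ∑ j ∈ range (k + 1 - i), a (i + j) with hT
      have h5 : T / D ≤ a i := by
        rw [div_le_iff₀ hD0]
        linarith
      have h6 : ∑ j ∈ range (k + 1 - (i + 1)), a (i + 1 + j) ≤ (1 - 1 / D) * T := by
        have : (1 - 1 / D) * T = T - T / D := by ring
        rw [this]
        linarith
      refine h6.trans ?_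
      rw [pow_succ, mul_comm _ (1 - 1 / D), mul_assoc]
      exact mul_le_mul_of_nonneg_left h1 hθ
  have h1 := key k le_rfl
  have h2 : k + 1 - k = 1 := by omega
  rw [h2, Finset.sum_range_one, add_zero] at h1
  refine h1.trans ?_
  have h3 := h 0 (k + 1)
  calc (1 - 1 / D) ^ k * ∑ j ∈ range (k + 1), a (0 + j) ≤ (1 - 1 / D) ^ k * (D * a 0) :=
        mul_le_mul_of_nonneg_left h3 (pow_nonneg hθ k)
    _ = D * (1 - 1 / D) ^ k * a 0 := by ring

/-- growth of the measure of the dilated intervals -/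
theorem growth {r : ℝ} (hr : 1 ≤ r) {w : ℝ → ℝ≥0∞} (hw : AEMeasurable w) {C : ℝ≥0}
    (hB : BB r w C) (hfin : ∀ c h, m w c h ≠ ∞) :
    ∃ D : ℝ, 1 ≤ D ∧ ∀ c h : ℝ, 0 < h → ∀ k : ℕ, m w c (2 ^ k * h) ≤
      ENNReal.ofReal (D * ((1 - 1 / D) * 2 ^ r) ^ k) * m w c h := by
  refine ⟨max (6 * C) 1, le_max_right _ _, fun c h hh k => ?_⟩
  set D : ℝ := max (6 * C) 1 with hD
  have hD1 : 1 ≤ D := le_max_right _ _
  have h0 : 0 < (2 : ℝ) ^ (-r) := Real.rpow_pos_of_pos (by norm_num) _
  have h3 : (2 : ℝ) ^ (-r) * 2 ^ r = 1 := by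
    rw [← Real.rpow_add (by norm_num)]
    simp
  set M : ℕ → ℝ := fun j => (m w c (2 ^ j * h)).toReal with hM
  set a : ℕ → ℝ := fun j => ((2 : ℝ) ^ (-r)) ^ j * M j with ha
  have h1 : ∀ k n, ∑ j ∈ range n, a (k + j) ≤ D * a k := by
    intro k n
    have h2 := partial_sum hr hw hB c (2 ^ k * h) (by positivity) n
    have h4 : ∑ j ∈ range n, ENNReal.ofReal (((2 : ℝ) ^ (-r)) ^ j) * m w c (2 ^ j * (2 ^ k * h)) =
        ENNReal.ofReal (∑ j ∈ range n, ((2 : ℝ) ^ (-r)) ^ j * M (k + j)) := by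
      rw [ENNReal.ofReal_sum_of_nonneg]
      · refine Finset.sum_congr rfl fun j _ => ?_
        rw [ENNReal.ofReal_mul (by positivity), hM]
        simp only
        rw [ENNReal.ofReal_toReal (hfin _ _), ← mul_assoc (2 ^ j), ← pow_add, add_comm j k]
      · intro j _
        exact mul_nonneg (by positivity) ENNReal.toReal_nonneg
    rw [h4] at h2
    have h5 : 6 * ((C : ℝ≥0∞) * m w c (2 ^ k * h)) = ENNReal.ofReal (6 * C * M k) := by
      rw [ENNReal.ofReal_mul (by positivity), hM]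
      simp only
      rw [ENNReal.ofReal_toReal (hfin _ _), ENNReal.ofReal_mul (by norm_num),
        ENNReal.ofReal_coe_nnreal, mul_assoc]
      simp
    rw [h5, ENNReal.ofReal_le_ofReal_iff (mul_nonneg (by positivity) ENNReal.toReal_nonneg)] at h2
    calc ∑ j ∈ range n, a (k + j) = ((2 : ℝ) ^ (-r)) ^ k *
          ∑ j ∈ range n, ((2 : ℝ) ^ (-r)) ^ j * M (k + j) := by
          rw [Finset.mul_sum]
          refine Finset.sum_congr rfl fun j _ => ?_
          rw [ha]
          simp only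
          rw [pow_add]
          ring
      _ ≤ ((2 : ℝ) ^ (-r)) ^ k * (6 * C * M k) := mul_le_mul_of_nonneg_left h2 (by positivity)
      _ ≤ ((2 : ℝ) ^ (-r)) ^ k * (D * M k) := by
          refine mul_le_mul_of_nonneg_left ?_ (by positivity)
          exact mul_le_mul_of_nonneg_right (le_max_left _ _) ENNReal.toReal_nonneg
      _ = D * a k := by
          rw [ha]
          ring
  have h2 := decay hD1 a (fun k => mul_nonneg (by positivity) ENNReal.toReal_nonneg) h1 k
  have h4 : M k ≤ D * ((1 - 1 / D) * 2 ^ r) ^ k * M 0 := by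
    have h5 : M k = (2 ^ r) ^ k * a k := by
      rw [ha]
      simp only
      rw [← mul_assoc, ← mul_pow, mul_comm ((2 : ℝ) ^ r), h3, one_pow, one_mul]
    have h6 : a 0 = M 0 := by
      rw [ha]
      simp
    rw [h5]
    calc ((2 : ℝ) ^ r) ^ k * a k ≤ (2 ^ r) ^ k * (D * (1 - 1 / D) ^ k * a 0) :=
          mul_le_mul_of_nonneg_left h2 (by positivity)
      _ = D * ((1 - 1 / D) * 2 ^ r) ^ k * M 0 := by
          rw [h6, mul_pow]
          ring
  have hθ : 0 ≤ 1 - 1 / D := by
    rw [sub_nonneg, div_le_one (by linarith)]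
    exact hD1
  have h5 := ENNReal.ofReal_le_ofReal h4
  rw [ENNReal.ofReal_mul (by positivity), hM] at h5
  simp only at h5
  rw [ENNReal.ofReal_toReal (hfin _ _), ENNReal.ofReal_toReal (hfin _ _), pow_zero, one_mul] at h5
  exact h5

/-- **Self-improvement.** -/
theorem self_improve {r : ℝ} (hr : 1 < r) {w : ℝ → ℝ≥0∞} (hw : AEMeasurable w) {C : ℝ≥0}
    (hB : BB r w C) (hfin : ∀ c h, m w c h ≠ ∞) :
    ∃ q : ℝ, 1 < q ∧ q < r ∧ ∃ C' : ℝ≥0, BB q w C' := by
  obtain ⟨D, hD, hg⟩ := growth hr.le hw hB hfin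
  have hD0 : 0 < D := by linarith
  have hθ : 0 ≤ 1 - 1 / D := by
    rw [sub_nonneg, div_le_one hD0]
    exact hD
  have hθ1 : 1 - 1 / D < 1 := by
    have : 0 < 1 / D := by positivity
    linarith
  -- the choice of `q`
  obtain ⟨q, hq1, hqr, hq⟩ : ∃ q : ℝ, 1 < q ∧ q < r ∧ (1 - 1 / D) * 2 ^ (r - q) < 1 := by
    have h1 : Filter.Tendsto (fun q : ℝ => (1 - 1 / D) * (2 : ℝ) ^ (r - q)) (nhdsWithin r (Iio r))
        (nhds ((1 - 1 / D) * 2 ^ (r - r))) := by
      apply tendsto_nhdsWithin_of_tendsto_nhds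
      have : Continuous (fun q : ℝ => (1 - 1 / D) * (2 : ℝ) ^ (r - q)) := by
        refine continuous_const.mul ?_
        exact Continuous.rpow continuous_const (by fun_prop) (fun _ => Or.inl (by norm_num))
      exact this.tendsto r
    rw [sub_self, Real.rpow_zero, mul_one] at h1
    have h2 := h1.eventually (gt_mem_nhds hθ1)
    have h3 : ∀ᶠ q in nhdsWithin r (Iio r), q ∈ Ioo 1 r := Ioo_mem_nhdsLT hr
    obtain ⟨q, h4, h5⟩ := (h2.and h3).exists
    exact ⟨q, h5.1, h5.2, h4⟩
  refine ⟨q, hq1, hqr, ?_⟩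
  set ρ : ℝ := (2 : ℝ) ^ (-q) * ((1 - 1 / D) * 2 ^ r) with hρ
  have hρ0 : 0 ≤ ρ := by positivity
  have hρ1 : ρ < 1 := by
    have e : (2 : ℝ) ^ (r - q) = 2 ^ (-q) * 2 ^ r := by
      rw [← Real.rpow_add (by norm_num)]
      congr 1
      ring
    have : ρ = (1 - 1 / D) * 2 ^ (r - q) := by
      rw [hρ, e]
      ring
    rw [this]
    exact hq
  have hsum : Summable fun j : ℕ => ρ ^ j := summable_geometric_of_lt_one hρ0 hρ1
  refine ⟨(4 ^ q * D * (1 - ρ)⁻¹).toNNReal, fun c h hh => ?_⟩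
  have h1 : ∀ x, w x * ENNReal.ofReal (K q (|x - c| / (2 * h))) ≤
      ∑' j : ℕ, ENNReal.ofReal (4 ^ q * ((2 : ℝ) ^ (-q)) ^ j) *
        (w x * (if |x - c| / (2 * h) < 2 ^ j / 2 then 1 else 0)) := by
    intro x
    obtain ⟨j, h2, h3⟩ := K_le (q := q) (by linarith) (|x - c| / (2 * h)) (by positivity)
    refine le_trans ?_ (ENNReal.le_tsum j)
    rw [if_pos h2, mul_one, mul_comm]
    gcongr
  calc ∫⁻ x, w x * ENNReal.ofReal (K q (|x - c| / (2 * h)))
      ≤ ∫⁻ x, ∑' j : ℕ, ENNReal.ofReal (4 ^ q * ((2 : ℝ) ^ (-q)) ^ j) *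
        (w x * (if |x - c| / (2 * h) < 2 ^ j / 2 then 1 else 0)) := lintegral_mono h1
    _ = ∑' j : ℕ, ENNReal.ofReal (4 ^ q * ((2 : ℝ) ^ (-q)) ^ j) * m w c (2 ^ j * h) := by
        rw [lintegral_tsum]
        · refine tsum_congr fun j => ?_
          rw [m_eq w c h _ hh, lintegral_const_mul']
          exact ENNReal.ofReal_ne_top
        · intro j
          refine AEMeasurable.const_mul (hw.mul (Measurable.aemeasurable ?_)) _
          refine Measurable.ite ?_ measurable_const measurable_const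
          exact measurableSet_lt (by fun_prop) measurable_const
    _ ≤ ∑' j : ℕ, ENNReal.ofReal (4 ^ q * D * ρ ^ j) * m w c h := by
        refine ENNReal.tsum_le_tsum fun j => ?_
        calc ENNReal.ofReal (4 ^ q * ((2 : ℝ) ^ (-q)) ^ j) * m w c (2 ^ j * h)
            ≤ ENNReal.ofReal (4 ^ q * ((2 : ℝ) ^ (-q)) ^ j) *
              (ENNReal.ofReal (D * ((1 - 1 / D) * 2 ^ r) ^ j) * m w c h) := by
              gcongr
              exact hg c h hh j
          _ = ENNReal.ofReal (4 ^ q * D * ρ ^ j) * m w c h := by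
              rw [← mul_assoc, ← ENNReal.ofReal_mul (by positivity)]
              congr 2
              have e : ρ ^ j = ((2 : ℝ) ^ (-q)) ^ j * ((1 - 1 / D) * 2 ^ r) ^ j := by
                rw [hρ, mul_pow]
              rw [e]
              ring
    _ = (4 ^ q * D * (1 - ρ)⁻¹).toNNReal * m w c h := by
        rw [ENNReal.tsum_mul_right]
        congr 1
        rw [← ENNReal.ofReal_tsum_of_nonneg]
        · rw [tsum_mul_left, tsum_geometric_of_lt_one hρ0 hρ1]
          rfl
        · intro j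
          positivity
        · exact hsum.mul_left _

/-- monotonicity -/
theorem BB_mono {q r : ℝ} (hqr : q ≤ r) (hq : 0 < q) {w : ℝ → ℝ≥0∞} {C : ℝ≥0}
    (hB : BB q w C) : BB r w (2 * C) := by
  intro c h hh
  have h1 : ∀ t : ℝ, 0 ≤ t → K r t ≤ 2 * K q t := by
    intro t ht
    have h2 := Real.rpow_nonneg ht q
    have h3 := Real.rpow_nonneg ht r
    unfold K
    rw [mul_one_div, div_le_div_iff₀ (by positivity) (by positivity)]
    rcases le_or_gt t 1 with h4 | h4
    · have h5 : t ^ q ≤ 1 := Real.rpow_le_one ht h4 hq.le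
      nlinarith
    · have h5 : t ^ q ≤ t ^ r := Real.rpow_le_rpow_of_exponent_le h4.le hqr
      nlinarith
  calc ∫⁻ x, w x * ENNReal.ofReal (K r (|x - c| / (2 * h)))
      ≤ ∫⁻ x, 2 * (w x * ENNReal.ofReal (K q (|x - c| / (2 * h)))) := by
        refine lintegral_mono fun x => ?_
        calc w x * ENNReal.ofReal (K r (|x - c| / (2 * h)))
            ≤ w x * ENNReal.ofReal (2 * K q (|x - c| / (2 * h))) := by
              gcongr
              exact h1 _ (by positivity)
          _ = _ := by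
              rw [ENNReal.ofReal_mul (by norm_num)]
              rw [show ENNReal.ofReal 2 = 2 by simp]
              ring
    _ = 2 * ∫⁻ x, w x * ENNReal.ofReal (K q (|x - c| / (2 * h))) :=
        lintegral_const_mul' _ _ (by simp)
    _ ≤ 2 * (C * m w c h) := by
        gcongr
        exact hB c h hh
    _ = ((2 * C : ℝ≥0) : ℝ≥0∞) * m w c h := by
        push_cast
        ring

end Pool.Agent.L5helper3.BWeights
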